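import Pool.Agent.helper12.OB.SpecC

set_option autoImplicit false

namespace Pool.Agent.OB

open Pool.Agent.helper58.DC Pool.Agent.DI Pool.Agent.GR

theorem FHH_tp {G : Type} [Group G] (p : ℕ) (x y : G) : tp p (y * x * y⁻¹) = tp p x := by
  unfold tp
  have h : (y * x * y⁻¹) ^ p = 1 ↔ x ^ p = 1 := by
    rw [conj_pow]
    constructor
    · intro h
      have h2 : y⁻¹ * (y * x ^ p * y⁻¹) * y = y⁻¹ * 1 * y := by rw [h]
      have h3 : y⁻¹ * (y * x ^ p * y⁻¹) * y = x ^ p := by group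
      have h4 : y⁻¹ * 1 * y = 1 := by group
      rw [← h3, h2, h4]
    · intro h
      rw [h]
      group
  by_cases hx : x ^ p = 1
  · rw [if_pos hx, if_pos (h.2 hx)]
  · rw [if_neg hx, if_neg (fun hh => hx (h.1 hh))]

theorem FHH (hTEX : TEX_stmt) (hTPM : TPM_stmt) (hRDZ : RDZ_stmt) (hCHM : CHM_stmt)
    (hCNJ : CNJ_stmt) (hCCI : CCI_stmt) : FHH_stmt := by
  intro p e M hs G _ _ hO χ hχ hPD ζ hW n hn
  have : Fact p.Prime := ⟨hs.pr⟩
  rw [hTEX G p hO ζ ζ hW.cls hW.cls n]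
  refine hCHM p M hs G (fun C => ∑ᶠ ψ ∈ IrrOn (nrm C), cc ψ ζ * cc ψ ζ * (cc ψ (tp p)) ^ n) ?_ ?_
  · intro C hC
    refine InM.finsum_mem hs fun ψ hψ => ?_
    have hI := (hCCI G (nrm C) ψ hψ).2.2 p M hs
    have hζ : IntAt M (cc ψ ζ) := (hI ζ (fun h _ x => hW.cls x h)).1 hW.int
    have htp : IntAt M (cc ψ (tp p)) := by
      refine (hI (tp p) (fun h _ x => FHH_tp p x h)).1 fun x => ?_
      unfold tp
      split_ifs
      · exact IntAt.one hs
      · exact IntAt.zero hs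
    obtain ⟨d, hd, h | h⟩ := hRDZ p M hs G χ hχ hPD C hC ψ hψ
    · have h1 := hTPM p M hs G (nrm C) ψ hψ d h hd
      exact InM.mul_left hs (hζ.mul hs hζ) (h1.pow hs (by omega))
    · have h1 := hW.blk C hC ψ hψ
      rw [if_neg h, sub_zero] at h1
      exact InM.mul_right hs (InM.mul_left hs hζ h1) (htp.pow hs n)
  · intro g C _
    exact (hCNJ G g C).1 ζ (tp p) hW.cls (fun x y => FHH_tp p x y) (fun a b => a * a * b ^ n)

end Pool.Agent.OB
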