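import Pool.Agent.helper22.OB.SpecZ
import Pool.Agent.helper9.GR.PPT

set_option autoImplicit false

namespace Pool.Agent.OB

open Pool.Agent.helper58.DC Pool.Agent.DI Pool.Agent.GR

theorem ZT1_dec {p : ℕ} (hp : p.Prime) {G : Type} [Group G] [Finite G] (g : G) :
    ∃ e f : ℕ, PEl p (g ^ e) ∧ PReg p (g ^ f) ∧ g ^ e * g ^ f = g := by
  have hn0 : orderOf g ≠ 0 := (orderOf_pos g).ne'
  obtain ⟨e, f, h1, h2, h3⟩ := PPT_ex (n := orderOf g) hp hn0
  set n := orderOf g with hn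
  set b := n / p ^ n.factorization p with hb
  have hab : p ^ n.factorization p * b = n := Nat.ordProj_mul_ordCompl_eq_self n p
  have hpb : ¬ p ∣ b := Nat.not_dvd_ordCompl hp hn0
  have hbe : b ∣ e := (Nat.modEq_zero_iff_dvd).mp
    (h2 b ⟨p ^ n.factorization p, by rw [mul_comm]; exact hab.symm⟩ hpb).1
  have haf : p ^ n.factorization p ∣ f := (Nat.modEq_zero_iff_dvd).mp
    (h1 _ ⟨b, hab.symm⟩ ⟨_, dvd_rfl⟩).2
  refine ⟨e, f, ⟨n.factorization p, ?_⟩, ?_, ?_⟩
  · rw [← pow_mul, ← orderOf_dvd_iff_pow_eq_one, ← hn]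
    calc n = b * p ^ n.factorization p := by rw [mul_comm]; exact hab.symm
      _ ∣ e * p ^ n.factorization p := Nat.mul_dvd_mul_right hbe _
  · intro hd
    have : orderOf (g ^ f) ∣ b := by
      rw [orderOf_dvd_iff_pow_eq_one, ← pow_mul, ← orderOf_dvd_iff_pow_eq_one, ← hn]
      calc n = p ^ n.factorization p * b := hab.symm
        _ ∣ f * b := Nat.mul_dvd_mul_right haf _
    exact hpb (hd.trans this)
  · rw [← pow_add]
    conv_rhs => rw [← pow_one g]
    exact pow_eq_pow_iff_modEq.mpr h3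

theorem ZT1 (hBR0 : BR0_stmt) (hBCL : BCL_stmt) : ZT1_stmt := by
  intro p M hs G _ _ χ g hg
  obtain ⟨e, f, he, hf, hgf⟩ := ZT1_dec hs.pr g
  have hne : g ^ e ≠ 1 := by
    intro h
    rw [h, one_mul] at hgf
    rw [hgf] at hf
    exact hf hg
  have h1 : PEl p (1 : G) := ⟨0, by simp⟩
  have h2 : PReg p (1 : G) := by
    intro h
    rw [orderOf_one] at h
    exact hs.pr.one_lt.ne' (Nat.dvd_one.1 h)
  have h := hBR0 p M hs G ⊤ (Blk M χ ⊤) (hBCL G M χ ⊤) 1 trivial 1 trivial (g ^ e) trivial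
    (g ^ f) trivial h1 he h2 hf (Commute.refl 1) ((Commute.refl g).pow_pow e f)
    (fun h _ hh => hne (by rw [← hh]; group))
  rw [hgf, one_mul] at h
  unfold zeta eS
  unfold Sf at h
  rw [h, zero_div]

end Pool.Agent.OB
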