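import Pool.Agent.helper22.OB.SpecG
import Pool.Agent.helper80.OB.TUP

set_option autoImplicit false

/-!
# Project ob, row SUP: Frobenius's formula for the sphere
-/

namespace Pool.Agent.OB

open Pool.Agent.helper58.DC Pool.Agent.DI Pool.Agent.GR

theorem SUP (hLSB : LSB_stmt) (hCVF : CVF_stmt) (hCCI : CCI_stmt)
    (hB2 : B2_stmt) : SUP_stmt := by
  intro G _ _ p L g₁ g₂ hg₁ hg₂ n
  classical
  let _ : Fintype G := Fintype.ofFinite G
  obtain ⟨-, -, -, -, -, -, -, hCFs, -, -, -, -⟩ := hCVF G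
  obtain ⟨hfin, hI⟩ := hB2 G L
  set t := TUP_r L (tp p) with ht
  set k := cv (TUP_r L g₁) (TUP_r L g₂) with hk
  have htC : CF L t := TUP_CF L _ (TUP_tp p)
  have h1C : CF L (TUP_r L g₁) := TUP_CF L _ hg₁
  have h2C : CF L (TUP_r L g₂) := TUP_CF L _ hg₂
  have hkC : CF L k := (hCFs L _ _ h1C h2C).1
  have hKC : ∀ m : ℕ, CF L (TUP_K t k m) := by
    intro m
    induction m with
    | zero => exact hkC
    | succ m ih => exact (hCFs L _ _ htC ih).1
  have hKcc : ∀ ψ ∈ IrrOn L, ∀ m : ℕ,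
      cc ψ (TUP_K t k m) = (cc ψ (tp p)) ^ m * (cc ψ g₁ * cc ψ g₂) := by
    intro ψ hψ m
    obtain ⟨-, hm, -⟩ := hCCI G L ψ hψ
    induction m with
    | zero =>
      simp only [TUP_K, pow_zero, one_mul]
      rw [hk, hm _ _ h1C h2C, TUP_cc hB2 L g₁ ψ hψ, TUP_cc hB2 L g₂ ψ hψ]
    | succ m ih =>
      simp only [TUP_K]
      rw [hm _ _ htC (hKC m), ih, ht, TUP_cc hB2 L (tp p) ψ hψ]
      ring
  -- the value at one
  have hval : (Nat.card L : ℂ) * TUP_K t k n 1 =
      ∑ᶠ ψ ∈ IrrOn L, ψ 1 ^ 2 * cc ψ (TUP_K t k n) := hLSB G L _ (hKC n)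
  have hval2 : (Nat.card L : ℂ) * TUP_K t k n 1 =
      ∑ᶠ ψ ∈ IrrOn L, ψ 1 ^ 2 * (cc ψ g₁ * cc ψ g₂ * (cc ψ (tp p)) ^ n) := by
    rw [hval, finsum_mem_eq_finite_toFinset_sum _ hfin, finsum_mem_eq_finite_toFinset_sum _ hfin]
    refine Finset.sum_congr rfl fun ψ hψ => ?_
    have hψ' : ψ ∈ IrrOn L := hfin.mem_toFinset.1 hψ
    rw [hKcc ψ hψ' n]
    ring
  rw [← hval2]
  congr 1
  -- compute the left side
  have hmem : ∀ x : (Fin n → G) × G,
      Subgroup.closure (Set.range x.1 ∪ {x.2}) ≤ L ↔ (∀ j, x.1 j ∈ L) ∧ x.2 ∈ L := by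
    intro x
    rw [Subgroup.closure_le]
    constructor
    · intro h
      exact ⟨fun j => h (by simp), h (by simp)⟩
    · rintro ⟨h3, h4⟩ y hy
      rcases hy with ⟨j, rfl⟩ | hy
      · exact h3 j
      · rcases hy with rfl
        exact h4
  rw [finsum_mem_def, finsum_eq_sum_of_fintype, Fintype.sum_prod_type, hk, TUP_K_val]
  refine Finset.sum_congr rfl fun u _ => Finset.sum_congr rfl fun s _ => ?_
  by_cases hus : (∀ j, u j ∈ L) ∧ s ∈ L
  · rw [Set.indicator_of_mem (by exact (hmem (u, s)).2 hus)]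
    simp only
    have hq : qq u ∈ L := by
      unfold qq
      apply L.list_prod_mem
      intro x hx
      obtain ⟨j, rfl⟩ := (List.mem_ofFn' _ _).1 hx
      exact hus.1 j
    have h5 : ∏ j, t (u j) = ∏ j, tp p (u j) := by
      refine Finset.prod_congr rfl fun j _ => ?_
      rw [ht]
      unfold TUP_r
      rw [if_pos (hus.1 j)]
    have h6 : TUP_r L g₁ s = g₁ s := by
      unfold TUP_r
      rw [if_pos hus.2]
    have h8 : (qq u * s)⁻¹ ∈ L := L.inv_mem (L.mul_mem hq hus.2)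
    have h9 : TUP_r L g₂ ((qq u * s)⁻¹ * 1) = g₂ (qq u * s)⁻¹ := by
      rw [mul_one]
      unfold TUP_r
      rw [if_pos h8]
    rw [h5, h6, h9]
    ring
  · rw [Set.indicator_of_notMem (by
      intro h
      exact hus ((hmem (u, s)).1 h))]
    by_cases hs : s ∈ L
    · have hu : ∃ j, u j ∉ L := by
        by_contra hcon
        push Not at hcon
        exact hus ⟨hcon, hs⟩
      obtain ⟨j, hj⟩ := hu
      have h10 : ∏ j, t (u j) = 0 := by
        apply Finset.prod_eq_zero (Finset.mem_univ j)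
        rw [ht]
        unfold TUP_r
        rw [if_neg hj]
      rw [h10, zero_mul]
    · have h11 : TUP_r L g₁ s = 0 := by
        unfold TUP_r
        rw [if_neg hs]
      rw [h11, zero_mul, mul_zero]

end Pool.Agent.OB
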