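import Pool.Agent.helper22.OB.SpecD

set_option autoImplicit false

namespace Pool.Agent.OB

open Pool.Agent.helper58.DC Pool.Agent.DI Pool.Agent.GR

theorem DGA : DGA_stmt := by
  intro p a _ G _ _ D hD hne _ ha
  by_contra hc
  push Not at hc
  obtain ⟨m, hm⟩ := IsPGroup.iff_card.1 hD
  have hit : ∀ n : ℕ, ∀ z ∈ D, ∃ y ∈ D, y ^ (p ^ (a * n)) = z := by
    intro n
    induction n with
    | zero => intro z hz; exact ⟨z, hz, by simp⟩
    | succ n ih =>
      intro z hz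
      obtain ⟨w, hw, hwz⟩ := ih z hz
      obtain ⟨y, hy, hyw⟩ := hc w hw
      refine ⟨y, hy, ?_⟩
      rw [mul_add, mul_one, add_comm, pow_add, pow_mul, hyw, hwz]
  apply hne
  rw [eq_bot_iff]
  intro z hz
  obtain ⟨y, hy, hyz⟩ := hit m z hz
  rw [Subgroup.mem_bot, ← hyz]
  have h1 : y ^ (p ^ m) = 1 := by
    have h2 : (⟨y, hy⟩ : D) ^ Nat.card D = 1 := pow_card_eq_one'
    rw [hm] at h2
    simpa using congrArg (fun t : D => (t : G)) h2
  obtain ⟨k, hk⟩ : p ^ m ∣ p ^ (a * m) := pow_dvd_pow p (Nat.le_mul_of_pos_left m ha)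
  rw [hk, pow_mul, h1, one_pow]

end Pool.Agent.OB
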